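import Pool.Agent.Run7.h527.TP.Cb
import Pool.Agent.Results.MP_4ffbf9_nt.MultiplicativeValues

/-!
# The largest factors of solutions keep away from aliquot sums, cototients and arithmetic derivatives

Let `g(m)` be the sum of the proper divisors of `m`, the cototient `m - φ(m)`, the arithmetic derivative `m'` (with `p' = 1`
for primes and Leibniz' rule), or any positive combination `α m + β f(m)` with `f = σ`, `φ` or the arithmetic derivative. Let
`G` have steps bounded below by a positive constant and growth at most `v^d`, and `0 ≤ κ < τ ≤ 1`. There are `R` and `δ > 0`,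
which depend on `S`, `Q`, `P`, `d`, `κ`, `τ` only, such that for all `m ≤ N` which have two prime factors `p ≠ q`, not
dividing `m / (p q) ≥ 2`, with `p q ≥ m^τ`, but at most `N^(1 - η)` of them, there is NO solution of `A X + B Y = C Z` with
`gcd (X, Y) ≤ Q rad (gcd (X, Y))`, coefficients `A, B, C ≤ exp (M ^ δ)` without prime factors larger than `P` and `X`, `Y`,
`Z` products of spread at most `S` of degrees between `R` and `M ^ δ`, whose largest factor `M` satisfies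
`|M - G (g m)| ≤ g(m)^κ`. Consequently: for every `ε > 0` there are `R`, `δ > 0` and `κ > 0` such that this holds for ALL `m ≤ N`
but `ε N`.

Proof. Write `m = k p q`. Then `g(m) = a p q + b (p + q) + c` with integers `a ≠ 0`, `b`, `c` which depend on `k` only, and
`(a p + b) (a q + b) = a g(m) + b² - a c`. So for given `k ≤ N^(1 - τ)` every value is taken for at most `N^ε` pairs `p`, `q`
(the tool `Run7/h527/TP`), and the largest factors of solutions are few by the starting theorem `FactorWindows.count`. For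
small `τ` all but `ε N` integers have two such primes, by the second moment of the number of the prime factors in
`(N^(τ / 2), N^(1 / 8))`.
-/

set_option autoImplicit false

namespace Pool.Agent.Results.MP_4ffbf9_nt.AliquotSums

open Pool.Agent.N733.TG (Expanding expanding_pow)
open Pool.Agent.Results.MP_4ffbf9_nt.FactorWindows (Member Coef Solved)
open Run7.h527.TP (Bil Two win_nat density combine aliquot cototient deriv sig comb)

/-- **Largest factors of solutions keep away from the values of functions which are bilinear in two large primes.** Let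
`d ≥ 1`, `0 ≤ κ < τ ≤ 1` and let `S`, `Q`, `P` be natural numbers. There are `R` and `δ > 0` such that: let `g` be of the class
`Bil` and let `G` have steps `≥ a > 0` and growth at most `v^d`. There is `η > 0` such that for all large `N`, for all `m ≤ N`
with `Two τ m` but at most `N^(1 - η)`, there is NO solution of `A X + B Y = C Z` with
`gcd (X, Y) ≤ Q rad (gcd (X, Y))`, coefficients `A, B, C ≤ exp (M ^ δ)` without prime factors larger than `P` and `X`, `Y`,
`Z` products of spread at most `S` of degrees between `R` and `M ^ δ`, whose largest factor `M` satisfies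
`|M - G (g m)| ≤ g(m)^κ`. For every `ε > 0` there are `R`, `δ > 0`, `κ > 0` such that for all such `g` and `G` this holds for
ALL `m ≤ N` but `ε N`. The sum of the proper divisors, the cototient, the arithmetic derivative and their positive
combinations with the identity are examples of such functions `g`. -/
theorem result :
    (∀ S Q P : ℕ, ∀ d κ τ : ℝ, 1 ≤ d → 0 ≤ κ → κ < τ → τ ≤ 1 → ∃ (R : ℕ) (δ : ℝ), 0 < δ ∧
      ∀ g : ℕ → ℕ, Bil g → ∀ G : ℕ → ℝ, Expanding G d → ∃ η : ℝ, 0 < η ∧ ∃ N₀ : ℕ, ∀ N : ℕ, N₀ ≤ N →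
      ({m : ℕ | 1 ≤ m ∧ m ≤ N ∧ Two τ m ∧
        ∃ M : ℕ, Solved S Q P R δ M ∧ |(M : ℝ) - G (g m)| ≤ (g m : ℝ) ^ κ}.ncard : ℝ) ≤ (N : ℝ) ^ (1 - η)) ∧
    (∀ S Q P : ℕ, ∀ d ε : ℝ, 1 ≤ d → 0 < ε → ∃ (R : ℕ) (δ κ : ℝ), 0 < δ ∧ 0 < κ ∧
      ∀ g : ℕ → ℕ, Bil g → ∀ G : ℕ → ℝ, Expanding G d → ∃ N₀ : ℕ, ∀ N : ℕ, N₀ ≤ N →
      ({m : ℕ | 1 ≤ m ∧ m ≤ N ∧
        ∃ M : ℕ, Solved S Q P R δ M ∧ |(M : ℝ) - G (g m)| ≤ (g m : ℝ) ^ κ}.ncard : ℝ) ≤ ε * N) ∧
    (Bil aliquot ∧ Bil cototient ∧ Bil deriv ∧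
      (∀ α β : ℤ, (∀ m : ℕ, 2 ≤ m → 0 < α * m + β * sig m) → Bil (comb α β sig)) ∧
      (∀ α β : ℤ, (∀ m : ℕ, 2 ≤ m → 0 < α * m + β * Nat.totient m) → Bil (comb α β Nat.totient)) ∧
      ∀ α β : ℤ, (∀ m : ℕ, 2 ≤ m → 0 < α * m + β * deriv m) → Bil (comb α β deriv)) ∧
    ∀ α d : ℝ, 0 < α → 1 ≤ d → Expanding (fun v => α * (v : ℝ) ^ d) d := by
  have one : ∀ S Q P : ℕ, ∀ d κ τ : ℝ, 1 ≤ d → 0 ≤ κ → κ < τ → τ ≤ 1 → ∃ (R : ℕ) (δ : ℝ), 0 < δ ∧
      ∀ g : ℕ → ℕ, Bil g → ∀ G : ℕ → ℝ, Expanding G d → ∃ η : ℝ, 0 < η ∧ ∃ N₀ : ℕ, ∀ N : ℕ, N₀ ≤ N →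
      ({m : ℕ | 1 ≤ m ∧ m ≤ N ∧ Two τ m ∧
        ∃ M : ℕ, Solved S Q P R δ M ∧ |(M : ℝ) - G (g m)| ≤ (g m : ℝ) ^ κ}.ncard : ℝ) ≤ (N : ℝ) ^ (1 - η) := by
   intro S Q P d κ τ hd hκ hκ1 hτ
   obtain ⟨η, hη⟩ : ∃ η, η = (τ - κ) / (2 * d) := ⟨_, rfl⟩
   have hη0 : 0 < η := by
     rw [hη]
     apply div_pos (by linarith) (by linarith)
   have hηd : d * η + κ < τ := by
     have : d * η = (τ - κ) / 2 := by
       rw [hη]
       field_simp
     rw [this]
     linarith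
   obtain ⟨R, δ, hδ, C, hC, h⟩ := FactorWindows.count S Q P η hη0
   refine ⟨R, δ, hδ, fun g hg G hG => ?_⟩
   classical
   obtain ⟨η', hη', N₀, hN₀⟩ := win_nat {M : ℕ | Solved S Q P R δ M} hg hG (s := η) (κ := κ) hη0.le hκ hηd hτ
     (fun ε hε => by
       refine ⟨C, fun X hX => ?_⟩
       have hX1 : (1 : ℝ) ≤ X := by exact_mod_cast hX
       refine le_trans (le_of_eq ?_) ((h X hX).trans ?_)
       · congr!
       · apply mul_le_mul_of_nonneg_left _ hC
         apply Real.rpow_le_rpow_of_exponent_le hX1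
         linarith)
   refine ⟨η', hη', N₀, fun N hN => le_trans ?_ (hN₀ N hN)⟩
   have hfin : {m : ℕ | 1 ≤ m ∧ m ≤ N ∧ Two τ m ∧ ∃ n : ℕ, (n = 0 ∨ n ∈ {M : ℕ | Solved S Q P R δ M}) ∧
       |(n : ℝ) - G (g m)| ≤ (g m : ℝ) ^ κ}.Finite := by
     apply (Set.finite_Icc 1 N).subset
     intro m hm
     exact ⟨hm.1, hm.2.1⟩
   have h2 : {m : ℕ | 1 ≤ m ∧ m ≤ N ∧ Two τ m ∧ ∃ M : ℕ, Solved S Q P R δ M ∧ |(M : ℝ) - G (g m)| ≤ (g m : ℝ) ^ κ} ⊆
       {m : ℕ | 1 ≤ m ∧ m ≤ N ∧ Two τ m ∧ ∃ n : ℕ, (n = 0 ∨ n ∈ {M : ℕ | Solved S Q P R δ M}) ∧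
       |(n : ℝ) - G (g m)| ≤ (g m : ℝ) ^ κ} := by
     rintro m ⟨h2, h3, h4, n, h5, h6⟩
     exact ⟨h2, h3, h4, n, Or.inr h5, h6⟩
   exact_mod_cast Set.ncard_le_ncard h2 hfin
  refine ⟨one, fun S Q P d ε hd hε => ?_, Run7.h527.TP.examples, fun α d hα hd => expanding_pow hα hd⟩
  obtain ⟨τ, hτ0, hτ1, hden⟩ := density (ε / 2) (by positivity)
  obtain ⟨R, δ, hδ, h⟩ := one S Q P d (τ / 2) τ hd (by linarith) (by linarith) hτ1
  exact ⟨R, δ, τ / 2, hδ, by linarith, fun g hg G hG => combine hε hden _ (h g hg G hG)⟩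

end Pool.Agent.Results.MP_4ffbf9_nt.AliquotSums
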