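import Pool.Agent.Run7.h197.Z.Port

/-!
# MP_4ffbf9_nt: perfect powers, two degrees with a common factor

We consider `AX + BY = CZ` with `gcd(X, Y) / rad(gcd(X, Y)) ≤ Q` in products of spread `0`, that is in
perfect powers `X = x^p`, `Y = y^q`, `Z = z^r`. Let `d ≥ 2` and let `P` be a finite set of algebraic
numbers (with `-1 ∉ P` if `d = 2`).

**Theorem.** There is `r₀` such that only finitely many triples `(X, Y, Z)` are solutions for which two
of the degrees are divisible by `d`, the third one is at least `r₀`, and the quotient of the two terms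
(among `AX`, `BY`, `-CZ`) whose degrees are divisible by `d` is close to a point `w` of `P ∪ {∞}`:
`|U/V - w| ≤ H^(-1/M)`, or `|U/V| ≥ H^(1/M)` for `w = ∞`, where `H = max(|U|, |V|)`.
For `w = 0`, `∞`, `-1` this says that one of the three terms is smaller than the others by a power.

The degrees themselves are arbitrary. The sum of the reciprocals of the degrees can be greater than `1`
(for `d = 2` and `P` without `-1`, for instance degrees `2, 2, r`), and the bases of `X`, `Y`, `Z` can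
have common factors.

Proof. The condition on the gcd implies that the primes dividing `x` and `y` are at most `Q`. So the
three terms are `S`-units times powers of integers without common prime factors, for a finite set `S`
of primes which depends on `A`, `B`, `C` and `Q` only, and their greatest common divisor is bounded.
The coefficients are arbitrary `S`-units; modulo `d`-th powers they are in a finite set. Now the bounds
for generalised Fermat equations with `S`-unit coefficients of `MP_be1fae_nt.CommonFactorSUnits`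
(`Run7.h197.Z.sfc`) apply, which rest on lower bounds for linear forms in logarithms that are sharp in
one height and polynomial in the logarithms of the others.
-/

set_option autoImplicit false

namespace Pool.Agent.Results.MP_4ffbf9_nt.CommonFactor

open Run7.h197.Z Run7.h197.N

/-- The product of the primes dividing `g`. -/
def rad (g : ℕ) : ℕ := ∏ l ∈ g.primeFactors, l

/-- The terms `AX`, `BY` and `-CZ`, whose sum is zero. -/
def term (A B C X Y Z : ℕ) : Fin 3 → ℤ := ![(A * X : ℤ), (B * Y : ℤ), -(C * Z : ℤ)]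

/-- `U / V` is close to the point `w` of the projective line (`none` is the point at infinity):
`|U/V - w| ≤ H^(-1/M)`, or `|U/V| ≥ H^(1/M)`, where `H = max(|U|, |V|)`. -/
def Near (M : ℕ) (U V : ℤ) : Option ℂ → Prop
  | none => max |(U : ℝ)| |(V : ℝ)| * |(V : ℝ)| ^ M ≤ |(U : ℝ)| ^ M
  | some w => max |(U : ℝ)| |(V : ℝ)| * ‖(U : ℂ) - w * (V : ℂ)‖ ^ M ≤ |(V : ℝ)| ^ M

/-- **Two degrees with a common factor.** -/
theorem result (A B C : ℕ) (hA : 0 < A) (hB : 0 < B) (hC : 0 < C) (Q : ℝ) (d : ℕ) (hd : 2 ≤ d)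
    (P : Finset ℂ) (hP : ∀ w ∈ P, IsAlgebraic ℚ w) (hP2 : d = 2 → (-1 : ℂ) ∉ P) (M : ℕ) :
    ∃ r₀ : ℕ, {T : ℕ × ℕ × ℕ | ∃ X Y Z : ℕ, T = (X, Y, Z) ∧ 0 < X ∧ 0 < Y ∧ 0 < Z ∧
      A * X + B * Y = C * Z ∧ (Nat.gcd X Y : ℝ) / rad (Nat.gcd X Y) ≤ Q ∧
      ∃ x n : Fin 3 → ℕ, (∀ i, 0 < n i) ∧ X = x 0 ^ n 0 ∧ Y = x 1 ^ n 1 ∧ Z = x 2 ^ n 2 ∧
      ∃ i j k : Fin 3, i ≠ j ∧ i ≠ k ∧ j ≠ k ∧ d ∣ n i ∧ d ∣ n j ∧ r₀ ≤ n k ∧
      ∃ w : Option ℂ, (∀ v, w = some v → v ∈ P) ∧
        Near M (term A B C X Y Z i) (term A B C X Y Z j) w}.Finite := by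
  classical
  obtain ⟨q, hq⟩ : ∃ q : ℕ, Q ≤ q := exists_nat_ge Q
  obtain ⟨S, hS⟩ : ∃ S : Finset ℕ, S = Finset.range (A + B + C + q + 1) := ⟨_, rfl⟩
  have hmem : ∀ m : ℕ, m ≤ A + B + C + q → m ∈ S := fun m hm => by
    rw [hS, Finset.mem_range]
    omega
  obtain ⟨N, r₁, hmain⟩ := Run7.h197.Z.terms S d hd P hP hP2 M
  obtain ⟨G, hG⟩ : ∃ G : ℕ, G = q * ∏ l ∈ (Finset.range (q + 1)).filter Nat.Prime, l := ⟨_, rfl⟩
  obtain ⟨W, hW⟩ : ∃ W : ℕ, W = 2 * (A * B * G * N) := ⟨_, rfl⟩
  refine ⟨max r₁ 2, ((Set.finite_Iic W).prod ((Set.finite_Iic W).prod (Set.finite_Iic W))).subset ?_⟩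
  rintro T ⟨X, Y, Z, rfl, hX, hY, hZ, heq, hgcd, x, n, hn, hXx, hYx, hZx, i, j, k, hij, hik, hjk, hdi,
    hdj, hrk, w, hw, hnear⟩
  -- elementary facts on three indices
  have hsum : ∀ (f : Fin 3 → ℤ), f i + f j + f k = f 0 + f 1 + f 2 := by
    intro f
    fin_cases i <;> fin_cases j <;> fin_cases k <;> simp at hij hik hjk ⊢ <;> ring
  have hcov : ∀ m : Fin 3, m = i ∨ m = j ∨ m = k := by
    intro m
    fin_cases i <;> fin_cases j <;> fin_cases k <;> fin_cases m <;> simp at hij hik hjk ⊢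
  -- the terms
  let a : Fin 3 → ℤ := ![(A : ℤ), (B : ℤ), -(C : ℤ)]
  have hterm : ∀ m, term A B C X Y Z m = a m * (x m : ℤ) ^ n m := by
    intro m
    fin_cases m
    · show (A * X : ℤ) = A * (x 0 : ℤ) ^ n 0
      rw [hXx]
      push_cast
      ring
    · show (B * Y : ℤ) = B * (x 1 : ℤ) ^ n 1
      rw [hYx]
      push_cast
      ring
    · show -(C * Z : ℤ) = -(C : ℤ) * (x 2 : ℤ) ^ n 2
      rw [hZx]
      push_cast
      ring
  have htsum : term A B C X Y Z i + term A B C X Y Z j + term A B C X Y Z k = 0 := by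
    rw [hsum]
    show (A * X : ℤ) + (B * Y : ℤ) + -(C * Z : ℤ) = 0
    have h : (A * X + B * Y : ℤ) = C * Z := by exact_mod_cast heq
    linarith
  have haS : ∀ m, SUnit S (a m) := by
    intro m
    fin_cases m
    · refine ⟨by show (A : ℤ) ≠ 0; exact_mod_cast hA.ne', fun p hp h => hmem p ?_⟩
      have h1 : p ∣ A := by
        have h2 : (p : ℤ) ∣ (A : ℤ) := h
        exact_mod_cast h2
      have := Nat.le_of_dvd hA h1
      omega
    · refine ⟨by show (B : ℤ) ≠ 0; exact_mod_cast hB.ne', fun p hp h => hmem p ?_⟩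
      have h1 : p ∣ B := by
        have h2 : (p : ℤ) ∣ (B : ℤ) := h
        exact_mod_cast h2
      have := Nat.le_of_dvd hB h1
      omega
    · refine ⟨by
        show -(C : ℤ) ≠ 0
        exact neg_ne_zero.2 (by exact_mod_cast hC.ne'), fun p hp h => hmem p ?_⟩
      have h1 : p ∣ C := by
        have h2 : (p : ℤ) ∣ -(C : ℤ) := h
        rw [dvd_neg] at h2
        exact_mod_cast h2
      have := Nat.le_of_dvd hC h1
      omega
  have hx0 : ∀ m, x m ≠ 0 := by
    intro m h0
    have h1 : n m ≠ 0 := (hn m).ne'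
    fin_cases m
    · exact hX.ne' (by rw [hXx]; exact (pow_eq_zero_iff h1).2 h0)
    · exact hY.ne' (by rw [hYx]; exact (pow_eq_zero_iff h1).2 h0)
    · exact hZ.ne' (by rw [hZx]; exact (pow_eq_zero_iff h1).2 h0)
  have hn2 : ∀ m, 2 ≤ n m := by
    intro m
    rcases hcov m with h | h | h
    · rw [h]; exact hd.trans (Nat.le_of_dvd (hn i) hdi)
    · rw [h]; exact hd.trans (Nat.le_of_dvd (hn j) hdj)
    · rw [h]; exact (le_max_right _ _).trans hrk
  -- the condition on the greatest common divisor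
  have hradpos : 0 < rad (Nat.gcd X Y) := Finset.prod_pos fun l hl => (Nat.prime_of_mem_primeFactors hl).pos
  have hgq : Nat.gcd X Y ≤ q * ∏ l ∈ (Nat.gcd X Y).primeFactors, l := by
    rw [div_le_iff₀ (by exact_mod_cast hradpos)] at hgcd
    have h1 : (Nat.gcd X Y : ℝ) ≤ q * rad (Nat.gcd X Y) :=
      hgcd.trans (mul_le_mul_of_nonneg_right hq (Nat.cast_nonneg _))
    exact_mod_cast h1
  rw [hXx, hYx] at hgq
  obtain ⟨c1, c2⟩ := gcd_small q (x 0) (x 1) (n 0) (n 1) (hx0 0) (hn2 0) (hn2 1) hgq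
  rw [← hXx, ← hYx, ← hG] at c2
  obtain ⟨g, g1, g2, g3, g4, g5⟩ := hmain (a i) (a j) (-(a k)) (x i) (x j) (x k) (n i) (n j) (n k)
    (haS i) (haS j) (by
      refine ⟨neg_ne_zero.2 (haS k).1, fun p hp h => (haS k).2 p hp ?_⟩
      rwa [dvd_neg] at h) (hx0 i) (hx0 j) (hx0 k) (hn i) (hn j) hdi hdj ((le_max_left _ _).trans hrk) (by
      intro l hl hlS h1 h2 h3
      have hall : ∀ m, l ∣ x m := by
        intro m
        rcases hcov m with h | h | h <;> rw [h] <;> assumption
      exact hlS (hmem l ((c1 l hl (hall 0) (hall 1)).trans (by omega)))) (by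
      rw [← hterm, ← hterm, neg_mul, ← hterm]
      linarith) ⟨w, hw, by
      rw [← hterm, ← hterm]
      rcases w with _ | w <;> exact hnear⟩
  rw [← hterm] at g1 g2 g4 g5
  rw [neg_mul, ← hterm, dvd_neg] at g3
  have hgall : ∀ m, (g : ℤ) ∣ term A B C X Y Z m := by
    intro m
    rcases hcov m with h | h | h <;> rw [h] <;> assumption
  -- the bound for `g`
  have hg0 : (g : ℤ) ∣ (A * X : ℤ) := hgall 0
  have hg1 : (g : ℤ) ∣ (B * Y : ℤ) := hgall 1
  have hgle : g ≤ A * B * G := by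
    have e1 : g ∣ A * X := by exact_mod_cast hg0
    have e2 : g ∣ B * Y := by exact_mod_cast hg1
    have e3 : g ∣ Nat.gcd (A * B * X) (A * B * Y) := by
      apply Nat.dvd_gcd
      · exact e1.trans ⟨B, by ring⟩
      · exact e2.trans ⟨A, by ring⟩
    rw [Nat.gcd_mul_left] at e3
    have e4 : 0 < A * B * Nat.gcd X Y :=
      Nat.mul_pos (Nat.mul_pos hA hB) (Nat.gcd_pos_of_pos_left _ hX)
    exact (Nat.le_of_dvd e4 e3).trans (Nat.mul_le_mul_left _ c2)
  have hgN : ((g * N : ℕ) : ℤ) ≤ ((A * B * G * N : ℕ) : ℤ) := by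
    exact_mod_cast Nat.mul_le_mul_right _ hgle
  push_cast at hgN
  have hWZ : (W : ℤ) = 2 * (A * B * G * N) := by
    rw [hW]
    push_cast
    ring
  have hpos : (0 : ℤ) ≤ A * B * G * N := by positivity
  have hbd : ∀ m, |term A B C X Y Z m| ≤ W := by
    intro m
    rcases hcov m with h | h | h
    · rw [h]; linarith
    · rw [h]; linarith
    · have e1 : term A B C X Y Z k = -(term A B C X Y Z i + term A B C X Y Z j) := by linarith
      rw [h, e1, abs_neg]
      have e2 := abs_add_le (term A B C X Y Z i) (term A B C X Y Z j)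
      linarith
  have b0 : |(A * X : ℤ)| ≤ W := hbd 0
  have b1 : |(B * Y : ℤ)| ≤ W := hbd 1
  have b2 : |-(C * Z : ℤ)| ≤ W := hbd 2
  rw [abs_neg] at b2
  have c0 : A * X ≤ W := by
    have := (le_abs_self _).trans b0
    exact_mod_cast this
  have c1' : B * Y ≤ W := by
    have := (le_abs_self _).trans b1
    exact_mod_cast this
  have c2' : C * Z ≤ W := by
    have := (le_abs_self _).trans b2
    exact_mod_cast this
  refine ⟨?_, ?_, ?_⟩
  · exact (Nat.le_mul_of_pos_left _ hA).trans c0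
  · exact (Nat.le_mul_of_pos_left _ hB).trans c1'
  · exact (Nat.le_mul_of_pos_left _ hC).trans c2'

end Pool.Agent.Results.MP_4ffbf9_nt.CommonFactor
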