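import Mathlib
import Pool.Agent.Run7.h777.FC.Main

/-!
# `X + Y = Z` in products of spread `0` whose factors have boundedly many digits in a common base

A product of spread `0` is a perfect power `x ^ p` of degree `p`. For every `D` and `θ > 0` there is `δ > 0` such that only finitely many value triples
`(x ^ p, y ^ q, z ^ r)` of coprime solutions of `x ^ p + y ^ q = z ^ r` (all exponents free,
`1/p + 1/q + 1/r ≤ 1`) have the following property, where `N = max (x, y, z)` and `x, y, z ≥ N ^ θ`: for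
some integer `w ≥ 2` each of the three bases is a sum `w ^ a + c_1 w ^ (e_1) + ... + c_D w ^ (e_D)` with
`e_i ≤ (1 - θ) a` and integers `|c_i| ≤ N ^ δ`, and at most one of the three bases divides a power of `w`
(for a prime power `w` this is automatic).

The base `w` is not fixed and not supposed to be large: for `w = 2` the theorem is about integers whose binary
expansions consist of a leading digit and at most `D` short blocks of digits in arbitrary positions.

Proof. Linear forms in two `2`-adic logarithms (starting library) bound the exponents by a power of `log N`.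
Comparison of the leading digits shows that the equation divided by its largest term is
`(1 + ..) ^ p + w ^ (-k) (1 + ..) ^ q = (1 + ..) ^ r` (or that `w = 2` and the two summands have the same
leading digit). Dirichlet's theorem on simultaneous approximation, in a one sided form, gives an integer `f`
such that all positions, counted from the leading digits, are short of multiples `m f` by at most `f / L`,
with bounded `m`. So the three bases are values at `X = w ^ (-f)` of polynomials with constant term `1`,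
bounded degree and integral coefficients which are at most a small power of `w ^ f`. As the coefficients of
the low powers of `X` in `F = P ^ p + λ X ^ k Q ^ q - μ R ^ r` are also small, `F` is divisible by a high
power of `X`. A Wronskian argument for the functions `P ^ p`, `X ^ k Q ^ q`, `R ^ r`, `F` then shows that
`P` and `R` divide powers of each other, when both exponents are large; as `x` and `z` are coprime, both would
divide powers of `w`. So one of the exponents and then all of them are bounded, and the bounds for sparse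
solutions with bounded exponents (starting library, H458) finish the proof.
-/

set_option autoImplicit false

namespace Pool.Agent.Results.MP_4ffbf9_nt.IsolatedLeadingDigit

/-- `b = w ^ a + c_1 w ^ (e_1) + ... + c_D w ^ (e_D)` with `e_i ≤ (1 - θ) a` and `|c_i| ≤ X` -/
def Digits (w D : ℕ) (θ X : ℝ) (b : ℕ) : Prop :=
  ∃ (a : ℕ) (e : Fin D → ℕ) (c : Fin D → ℤ), (∀ i, (e i : ℝ) ≤ (1 - θ) * a) ∧
    (∀ i, |(c i : ℝ)| ≤ X) ∧ (b : ℤ) = (w : ℤ) ^ a + ∑ i, c i * (w : ℤ) ^ (e i)

/-- `b` divides a power of `w` -/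
def DividesPower (w b : ℕ) : Prop := ∃ n : ℕ, b ∣ w ^ n

/-- the value triples `(x ^ p, y ^ q, z ^ r)` of the solutions of `x ^ p + y ^ q = z ^ r` in coprime
positive integers and positive exponents with `1/p + 1/q + 1/r ≤ 1` such that for some `w ≥ 2` at most one
of the bases `x, y, z` divides a power of `w` and the bases are at least `N ^ θ` and have `Digits` with
`X = N ^ δ`, where `N = max (x, y, z)` -/
def Values (D : ℕ) (θ δ : ℝ) : Set (ℕ × ℕ × ℕ) :=
  {v | ∃ x y z p q r w N : ℕ, 0 < x ∧ 0 < y ∧ 0 < z ∧ Nat.Coprime x y ∧ 0 < p ∧ 0 < q ∧ 0 < r ∧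
    (1 : ℚ) / p + 1 / q + 1 / r ≤ 1 ∧ x ^ p + y ^ q = z ^ r ∧ v = (x ^ p, y ^ q, z ^ r) ∧
    N = max x (max y z) ∧ (N : ℝ) ^ θ ≤ x ∧ (N : ℝ) ^ θ ≤ y ∧ (N : ℝ) ^ θ ≤ z ∧ 2 ≤ w ∧
    Digits w D θ ((N : ℝ) ^ δ) x ∧ Digits w D θ ((N : ℝ) ^ δ) y ∧ Digits w D θ ((N : ℝ) ^ δ) z ∧
    ¬ (DividesPower w x ∧ DividesPower w y) ∧ ¬ (DividesPower w x ∧ DividesPower w z) ∧
    ¬ (DividesPower w y ∧ DividesPower w z)}

theorem ineq_of {l m k : ℕ} (hl : 0 < l) (hm : 0 < m) (hk : 0 < k)
    (h : (1 : ℚ) / l + 1 / m + 1 / k ≤ 1) : m * k + k * l + l * m ≤ l * m * k := by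
  have hl' : (0 : ℚ) < l := by exact_mod_cast hl
  have hm' : (0 : ℚ) < m := by exact_mod_cast hm
  have hk' : (0 : ℚ) < k := by exact_mod_cast hk
  have h1 : ((m * k + k * l + l * m : ℕ) : ℚ) ≤ ((l * m * k : ℕ) : ℚ) := by
    push_cast
    have h2 := mul_le_mul_of_nonneg_right h (by positivity : (0 : ℚ) ≤ l * m * k)
    have h3 : ((1 : ℚ) / l + 1 / m + 1 / k) * (l * m * k) = m * k + k * l + l * m := by
      field_simp
    linarith
  exact_mod_cast h1

theorem result (D : ℕ) (θ : ℝ) (hθ : 0 < θ) : ∃ δ : ℝ, 0 < δ ∧ (Values D θ δ).Finite := by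
  obtain ⟨R, hR⟩ := exists_nat_ge (1 / θ)
  have hRθ : 1 ≤ (R : ℝ) * θ := by
    rw [div_le_iff₀ hθ] at hR; exact hR
  obtain ⟨M, hM⟩ := Pool.Agent.Run7.h777.FC.main D R
  refine ⟨1 / (M + 1), by positivity, hM.subset ?_⟩
  rintro v ⟨x, y, z, p, q, r, w, N, hx, hy, hz, hcop, hp, hq, hr, hpqr, heq, rfl, hN, nx, ny, nz, hw,
    ⟨ax, ex, cx, hex, hcx, hxd⟩, ⟨ay, ey, cy, hey, hcy, hyd⟩, ⟨az, ez, cz, hez, hcz, hzd⟩, d1, d2, d3⟩
  have hN1 : 1 ≤ N := by rw [hN]; exact hx.trans_le (le_max_left _ _)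
  have hN1r : (1 : ℝ) ≤ N := by exact_mod_cast hN1
  have hNx : x ≤ N := by rw [hN]; exact le_max_left _ _
  have hNy : y ≤ N := by rw [hN]; exact (le_max_left _ _).trans (le_max_right _ _)
  have hNz : z ≤ N := by rw [hN]; exact (le_max_right _ _).trans (le_max_right _ _)
  have hδ0 : 0 ≤ (1 : ℝ) / (M + 1) := by positivity
  have hX1 : (1 : ℝ) ≤ (N : ℝ) ^ ((1 : ℝ) / (M + 1)) := Real.one_le_rpow hN1r hδ0
  obtain ⟨B, hB⟩ : ∃ B, B = ⌊(N : ℝ) ^ ((1 : ℝ) / (M + 1))⌋₊ := ⟨_, rfl⟩
  have hB1 : 1 ≤ B := by rw [hB, Nat.one_le_floor_iff]; exact hX1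
  have hBM : B ^ M ≤ N := by
    have h1 : (B : ℝ) ≤ (N : ℝ) ^ ((1 : ℝ) / (M + 1)) := by
      rw [hB]; exact Nat.floor_le (by linarith)
    have h2 : (B : ℝ) ^ M ≤ N := by
      calc (B : ℝ) ^ M ≤ ((N : ℝ) ^ ((1 : ℝ) / (M + 1))) ^ M := pow_le_pow_left₀ (by positivity) h1 _
        _ = (N : ℝ) ^ ((1 : ℝ) / (M + 1) * M) := by rw [← Real.rpow_natCast, ← Real.rpow_mul (by positivity)]
        _ ≤ (N : ℝ) ^ (1 : ℝ) := by
            apply Real.rpow_le_rpow_of_exponent_le hN1r
            rw [div_mul_eq_mul_div, one_mul, div_le_one (by positivity)]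
            linarith
        _ = N := Real.rpow_one _
    exact_mod_cast h2
  have hNR : ∀ b : ℕ, (N : ℝ) ^ θ ≤ b → N ≤ b ^ R := by
    intro b hb
    have h1 : (N : ℝ) ≤ (b : ℝ) ^ R := by
      calc (N : ℝ) = (N : ℝ) ^ (1 : ℝ) := (Real.rpow_one _).symm
        _ ≤ (N : ℝ) ^ (θ * R) := Real.rpow_le_rpow_of_exponent_le hN1r (by linarith)
        _ = ((N : ℝ) ^ θ) ^ R := by rw [← Real.rpow_natCast, ← Real.rpow_mul (by positivity)]
        _ ≤ (b : ℝ) ^ R := pow_le_pow_left₀ (by positivity) hb _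
    exact_mod_cast h1
  have hdig : ∀ {b a : ℕ} {e : Fin D → ℕ} {c : Fin D → ℤ}, (∀ i, (e i : ℝ) ≤ (1 - θ) * a) →
      (∀ i, |(c i : ℝ)| ≤ (N : ℝ) ^ ((1 : ℝ) / (M + 1))) →
      (b : ℤ) = (w : ℤ) ^ a + ∑ i, c i * (w : ℤ) ^ (e i) →
      Pool.Agent.Run7.h777.FC.Dig w D R B b a e c := by
    intro b a e c he hc hb
    refine ⟨fun i => ?_, fun i => ?_, hb⟩
    · have h1 := he i
      have ha : (0 : ℝ) ≤ a := Nat.cast_nonneg a
      have h2 : (e i : ℝ) ≤ a := by nlinarith
      have h3 : e i ≤ a := by exact_mod_cast h2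
      refine ⟨h3, ?_⟩
      have h4 : (a : ℝ) ≤ R * ((a : ℝ) - e i) := by
        have h5 : θ * a ≤ (a : ℝ) - e i := by linarith
        have h6 : (0 : ℝ) ≤ R := Nat.cast_nonneg R
        calc (a : ℝ) ≤ (R * θ) * a := le_mul_of_one_le_left ha hRθ
          _ = R * (θ * a) := by ring
          _ ≤ R * ((a : ℝ) - e i) := mul_le_mul_of_nonneg_left h5 h6
      rw [← Nat.cast_sub h3] at h4
      exact_mod_cast h4
    · have h1 := hc i
      have h2 : ((c i).natAbs : ℝ) ≤ (N : ℝ) ^ ((1 : ℝ) / (M + 1)) := by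
        rw [Nat.cast_natAbs]; simpa using h1
      have h3 : (c i).natAbs ≤ B := by rw [hB]; exact Nat.le_floor h2
      rw [Int.abs_eq_natAbs]
      exact_mod_cast h3
  refine ⟨![x, y, z], ![p, q, r], ![ax, ay, az], ![ex, ey, ez], ![cx, cy, cz], w, B, N, hw, hB1, ?_, ?_,
    hcop, heq, ineq_of hp hq hr hpqr, ?_, ?_, hBM, ?_, rfl⟩
  · intro j
    fin_cases j
    · exact hx
    · exact hy
    · exact hz
  · intro j
    fin_cases j
    · exact hp
    · exact hq
    · exact hr
  · intro j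
    fin_cases j
    · exact hdig hex hcx hxd
    · exact hdig hey hcy hyd
    · exact hdig hez hcz hzd
  · intro j
    fin_cases j
    · exact ⟨hNx, hNR x nx⟩
    · exact ⟨hNy, hNR y ny⟩
    · exact ⟨hNz, hNR z nz⟩
  · intro i j h1 h2
    fin_cases i <;> fin_cases j
    · rfl
    · exact absurd ⟨h1, h2⟩ d1
    · exact absurd ⟨h1, h2⟩ d2
    · exact absurd ⟨h2, h1⟩ d1
    · rfl
    · exact absurd ⟨h1, h2⟩ d3
    · exact absurd ⟨h2, h1⟩ d2
    · exact absurd ⟨h2, h1⟩ d3
    · rfl

end Pool.Agent.Results.MP_4ffbf9_nt.IsolatedLeadingDigit
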