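import Mathlib
import Pool.Agent.Run7.h880.SU.Div

/-!
# `A X + B Y = C Z` with a small term and two terms of spread `0`

Let `A, B, C, K ≥ 1` and let `R` be the product of `A B C` and the primes `≤ K`, with `ω` prime factors. For `N ≥ 3` and
`2 ≤ H ≤ N` there are at most

`exp (4720 (ω + 1) (log N) ^ (1/3) (log (H R log N)) ^ (2/3))`

triples `(X, Y, Z)` of positive integers with `A X + B Y = C Z ≤ N` and `gcd (X, Y) ≤ K rad (gcd (X, Y))` such that
`A X ≤ H` and `Y`, `Z` are products of spread `0` and degree at least `2` (perfect powers), or `B Y ≤ H` and `X`, `Z` are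
such products. There is no condition on the small term, all degrees (exponents) are free, and the constant is absolute, so
that `A, B, C, K` may depend on `N`. For fixed `A, B, C, K` the bound is smaller than every power of `N` if
`log H = o (log N)`.

Proof. The common prime factors of `B Y` and `C Z` divide `R`: if `r` divides both, but not `A B C`, then `r ^ 2` divides
`gcd (X, Y)`, so that `r ≤ K`. After division by the common divisor we get two coprime numbers at distance at most `H` which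
are perfect powers times numbers composed of the primes of `R`; these are counted in `Run7/h880/SU` (ideals and units of the
fields generated by the roots of `d c ^ (a - 1)`, gap principles, and the determinant method with coefficients, see
`MP_be1fae_nt.SmallTerms`).
-/

set_option autoImplicit false

namespace Pool.Agent.Results.MP_4ffbf9_nt.SmallTermPowers

open Pool.Agent.Run7.h880.SU

/-- a product of `n ≥ 2` equal positive integers (spread `0`) -/
def Power (X : ℕ) : Prop := ∃ x n : ℕ, 1 ≤ x ∧ 2 ≤ n ∧ x ^ n = X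

/-- the solutions of `A X + B Y = C Z ≤ N` with a term at most `H` and two terms of spread `0` -/
def Solutions (A B C K N H : ℕ) : Set (ℕ × ℕ × ℕ) :=
  {w | 1 ≤ w.1 ∧ 1 ≤ w.2.1 ∧ 1 ≤ w.2.2 ∧ A * w.1 + B * w.2.1 = C * w.2.2 ∧ C * w.2.2 ≤ N ∧
    Nat.gcd w.1 w.2.1 ≤ K * ∏ p ∈ (Nat.gcd w.1 w.2.1).primeFactors, p ∧
    ((A * w.1 ≤ H ∧ Power w.2.1 ∧ Power w.2.2) ∨ (B * w.2.1 ≤ H ∧ Power w.1 ∧ Power w.2.2))}

theorem Power.sq_dvd {X r : ℕ} (h : Power X) (hr : r.Prime) (hd : r ∣ X) : r ^ 2 ∣ X := by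
  obtain ⟨x, n, hx, hn, rfl⟩ := h
  exact (pow_dvd_pow r hn).trans (pow_dvd_pow_of_dvd (hr.dvd_of_dvd_pow hd) n)

/-- the common prime factors -/
theorem prime_dvd {A B C K X Y Z r : ℕ} (hX : 1 ≤ X) (hY : Power Y) (hZ : Power Z)
    (heq : A * X + B * Y = C * Z) (hg : Nat.gcd X Y ≤ K * ∏ p ∈ (Nat.gcd X Y).primeFactors, p)
    (hr : r.Prime) (h1 : r ∣ B * Y) (h2 : r ∣ C * Z) : r ∣ A * B * C * primorial K := by
  by_cases hA : r ∣ A
  · exact ((hA.mul_right B).mul_right C).mul_right _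
  by_cases hB : r ∣ B
  · exact ((hB.mul_left A).mul_right C).mul_right _
  by_cases hC : r ∣ C
  · exact (hC.mul_left (A * B)).mul_right _
  have hY1 : r ∣ Y := (hr.dvd_mul.1 h1).resolve_left hB
  have hZ1 : r ∣ Z := (hr.dvd_mul.1 h2).resolve_left hC
  have hY2 := hY.sq_dvd hr hY1
  have hZ2 := hZ.sq_dvd hr hZ1
  have hX2 : r ^ 2 ∣ X := by
    have h3 : r ^ 2 ∣ A * X := by
      have h4 : r ^ 2 ∣ A * X + B * Y := by
        rw [heq]
        exact hZ2.mul_left C
      exact (Nat.dvd_add_left (hY2.mul_left B)).1 h4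
    exact (Nat.Coprime.pow_left 2 ((Nat.Prime.coprime_iff_not_dvd hr).2 hA)).dvd_of_dvd_mul_left h3
  obtain ⟨g, hgdef⟩ : ∃ g, g = Nat.gcd X Y := ⟨_, rfl⟩
  rw [← hgdef] at hg
  have hg2 : r ^ 2 ∣ g := by
    rw [hgdef]
    exact Nat.dvd_gcd hX2 hY2
  have hg1 : 1 ≤ g := by
    rw [hgdef]
    exact Nat.gcd_pos_of_pos_left _ hX
  obtain ⟨h, hh⟩ := hg2
  have hrh : g = r * (r * h) := by
    rw [hh]
    ring
  have hh0 : r * h ≠ 0 := by
    intro h0
    rw [hrh, h0, mul_zero] at hg1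
    omega
  have hrad : ∏ p ∈ g.primeFactors, p ≤ r * h := by
    have h3 : g.primeFactors ⊆ (r * h).primeFactors := by
      intro p hp
      rw [Nat.mem_primeFactors] at hp ⊢
      refine ⟨hp.1, ?_, hh0⟩
      have h4 := hp.2.1
      rw [hrh] at h4
      rcases hp.1.dvd_mul.1 h4 with h5 | h5
      · exact h5.trans (dvd_mul_right r h)
      · exact h5
    have h4 : ∏ p ∈ g.primeFactors, p ∣ ∏ p ∈ (r * h).primeFactors, p :=
      Finset.prod_dvd_prod_of_subset _ _ _ h3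
    exact Nat.le_of_dvd (Nat.pos_of_ne_zero hh0) (h4.trans (Nat.prod_primeFactors_dvd _))
  have hrK : r ≤ K := by
    have h3 : r * (r * h) ≤ K * (r * h) := by
      rw [← hrh]
      exact hg.trans (Nat.mul_le_mul_left _ hrad)
    exact Nat.le_of_mul_le_mul_right h3 (Nat.pos_of_ne_zero hh0)
  refine Dvd.dvd.mul_left ?_ _
  exact (Nat.Prime.dvd_primorial_iff hr).2 hrK

theorem qu_dvd {A B C P : ℕ} : QU (A * B * C * P) A ∧ QU (A * B * C * P) B ∧ QU (A * B * C * P) C := by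
  refine ⟨⟨1, ?_⟩, ⟨1, ?_⟩, ⟨1, ?_⟩⟩
  · rw [pow_one]
    exact (((dvd_refl A).mul_right B).mul_right C).mul_right P
  · rw [pow_one]
    exact (((dvd_refl B).mul_left A).mul_right C).mul_right P
  · rw [pow_one]
    exact ((dvd_refl C).mul_left (A * B)).mul_right P

/-- the pair of the two large terms -/
theorem mem_PSD {A B C K N H X Y Z : ℕ} (hA : 1 ≤ A) (hB : 1 ≤ B) (hC : 1 ≤ C) (hX : 1 ≤ X)
    (hY : Power Y) (hZ : Power Z) (heq : A * X + B * Y = C * Z) (hN : C * Z ≤ N)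
    (hg : Nat.gcd X Y ≤ K * ∏ p ∈ (Nat.gcd X Y).primeFactors, p) (hH : A * X ≤ H) :
    (B * Y, C * Z) ∈ PSD (A * B * C * primorial K) N H := by
  obtain ⟨qA, qB, qC⟩ := qu_dvd (A := A) (B := B) (C := C) (P := primorial K)
  have hR : A * B * C * primorial K ≠ 0 :=
    Nat.mul_ne_zero (Nat.mul_ne_zero (Nat.mul_ne_zero (by omega) (by omega)) (by omega)) (primorial_pos K).ne'
  have hAX : 1 ≤ A * X := Nat.mul_pos hA hX
  have hCZ : C * Z ≠ 0 := by omega
  refine ⟨by simp only; omega, hN, by simp only; omega, ?_, ?_, ?_⟩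
  · refine qu_of_primes (Nat.gcd_ne_zero_right hCZ) hR fun r hr hd => ?_
    exact prime_dvd hX hY hZ heq hg hr (hd.trans (Nat.gcd_dvd_left _ _)) (hd.trans (Nat.gcd_dvd_right _ _))
  · obtain ⟨y, n, hy, hn, rfl⟩ := hY
    exact ⟨B, y, n, qB, hn, hy, rfl⟩
  · obtain ⟨z, n, hz, hn, rfl⟩ := hZ
    exact ⟨C, z, n, qC, hn, hz, rfl⟩

/-- **Few solutions with a small term and two terms of spread `0`.** -/
theorem result (A B C K N H : ℕ) (hA : 1 ≤ A) (hB : 1 ≤ B) (hC : 1 ≤ C) (hN : 3 ≤ N) (hH : 2 ≤ H) (hHN : H ≤ N) :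
    (Solutions A B C K N H).Finite ∧ ((Solutions A B C K N H).ncard : ℝ) ≤
      Real.exp (4720 * ((A * B * C * primorial K).primeFactors.card + 1) * (Real.log N) ^ ((1 : ℝ) / 3) *
        (Real.log (H * (A * B * C * primorial K : ℕ) * Real.log N)) ^ ((2 : ℝ) / 3)) := by
  classical
  obtain ⟨R, hRdef⟩ : ∃ R, R = A * B * C * primorial K := ⟨_, rfl⟩
  have hR1 : 1 ≤ R := by
    rw [hRdef]
    exact Nat.mul_pos (Nat.mul_pos (Nat.mul_pos hA hB) hC) (primorial_pos K)
  obtain ⟨s, hs⟩ : ∃ s, s = R.primeFactors.card := ⟨_, rfl⟩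
  obtain ⟨f1, f2⟩ := pairsQ_final (Q := R) hR1 hN hH hHN
  obtain ⟨f3, f4⟩ := card_PSD (X := N) (H := H) hR1 (by omega) f1
  have hsub : Solutions A B C K N H ⊆
      ((fun t : ℕ × ℕ => ((t.2 - t.1) / A, t.1 / B, t.2 / C)) '' PSD R N H) ∪
      ((fun t : ℕ × ℕ => (t.1 / A, (t.2 - t.1) / B, t.2 / C)) '' PSD R N H) := by
    rintro ⟨X, Y, Z⟩ ⟨h1, h2, h3, h4, h5, h6, h7⟩
    simp only at h1 h2 h3 h4 h5 h6 h7
    rcases h7 with ⟨h7, h8, h9⟩ | ⟨h7, h8, h9⟩
    · left
      refine ⟨(B * Y, C * Z), ?_, ?_⟩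
      · rw [hRdef]
        exact mem_PSD hA hB hC h1 h8 h9 h4 h5 h6 h7
      · simp only [Prod.mk.injEq]
        refine ⟨?_, Nat.mul_div_cancel_left _ hB, Nat.mul_div_cancel_left _ hC⟩
        rw [show C * Z - B * Y = A * X by omega]
        exact Nat.mul_div_cancel_left _ hA
    · right
      refine ⟨(A * X, C * Z), ?_, ?_⟩
      · have h10 := mem_PSD (A := B) (B := A) (C := C) (K := K) (N := N) (H := H) (X := Y) (Y := X) (Z := Z)
          hB hA hC h2 h8 h9 (by omega) h5 (by rw [Nat.gcd_comm]; exact h6) h7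
        rw [hRdef]
        rwa [mul_comm A B]
      · simp only [Prod.mk.injEq]
        refine ⟨Nat.mul_div_cancel_left _ hA, ?_, Nat.mul_div_cancel_left _ hC⟩
        rw [show C * Z - A * X = B * Y by omega]
        exact Nat.mul_div_cancel_left _ hB
  have hfin := (f3.image (fun t : ℕ × ℕ => ((t.2 - t.1) / A, t.1 / B, t.2 / C))).union
    (f3.image (fun t : ℕ × ℕ => (t.1 / A, (t.2 - t.1) / B, t.2 / C)))
  refine ⟨hfin.subset hsub, ?_⟩
  have h1 : (Solutions A B C K N H).ncard ≤ 2 * (PSD R N H).ncard := by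
    refine (Set.ncard_le_ncard hsub hfin).trans ((Set.ncard_union_le _ _).trans ?_)
    rw [two_mul]
    exact add_le_add (Set.ncard_image_le f3) (Set.ncard_image_le f3)
  have h2 : ((Solutions A B C K N H).ncard : ℝ) ≤
      2 * ((((Nat.log 2 N + 2) ^ s : ℕ) : ℝ) * ((PSQ R N H).ncard : ℝ)) := by
    have h3 : (Solutions A B C K N H).ncard ≤ 2 * ((Nat.log 2 N + 2) ^ s * (PSQ R N H).ncard) := by
      rw [hs]
      omega
    exact_mod_cast h3
  rw [← hRdef, ← hs]
  rw [← hs] at f2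
  obtain ⟨M, hM⟩ : ∃ M, M = Mb R N H := ⟨_, rfl⟩
  have hM1 : 2 / 3 ≤ M := by
    rw [hM]
    exact (Mb_ge hR1 hN hH).2
  have h3 := log_pow_le (R := R) (X := N) (H := H) hR1 hN hH s
  rw [← hM] at h3
  have e1 : 4710 * ((s : ℝ) + 1) * (Real.log N) ^ ((1 : ℝ) / 3) *
      (Real.log (H * R * Real.log N)) ^ ((2 : ℝ) / 3) = 4710 * ((s : ℝ) + 1) * M := by
    rw [hM]
    unfold Mb
    ring
  have e2 : 4720 * ((s : ℝ) + 1) * (Real.log N) ^ ((1 : ℝ) / 3) *
      (Real.log (H * R * Real.log N)) ^ ((2 : ℝ) / 3) = 4720 * ((s : ℝ) + 1) * M := by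
    rw [hM]
    unfold Mb
    ring
  rw [e1] at f2
  rw [e2]
  have hs0 : (0 : ℝ) ≤ s := Nat.cast_nonneg _
  have h4 : (2 : ℝ) ≤ Real.exp (3 / 2 * M) := by
    have := Real.add_one_le_exp (3 / 2 * M)
    linarith
  calc ((Solutions A B C K N H).ncard : ℝ)
      ≤ 2 * ((((Nat.log 2 N + 2) ^ s : ℕ) : ℝ) * ((PSQ R N H).ncard : ℝ)) := h2
    _ ≤ Real.exp (3 / 2 * M) * (Real.exp (5 * s * M) * Real.exp (4710 * ((s : ℝ) + 1) * M)) := by
        refine mul_le_mul h4 (mul_le_mul h3 f2 (Nat.cast_nonneg _) (Real.exp_pos _).le) (by positivity)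
          (Real.exp_pos _).le
    _ = Real.exp (3 / 2 * M + (5 * s * M + 4710 * ((s : ℝ) + 1) * M)) := by
        rw [← Real.exp_add, ← Real.exp_add]
    _ ≤ Real.exp (4720 * ((s : ℝ) + 1) * M) := by
        refine Real.exp_le_exp.2 ?_
        have : 0 ≤ s * M := mul_nonneg hs0 (by linarith)
        nlinarith

end Pool.Agent.Results.MP_4ffbf9_nt.SmallTermPowers
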